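import Pool.Agent.R612.DP.Systems

/-!
Down-posets are not first-order definable among the finite posets.
-/

set_option autoImplicit false

namespace Pool.Agent.Results.MP_bbe6b0_lc.NotFirstOrder

open Pool.Agent.R612.DP FirstOrder FirstOrder.Language

/-- No first-order sentence in the language of orders defines the `↓`-posets among the finite
posets. -/
theorem result (φ : Language.order.Sentence) :
    ∃ (P : Type) (_ : Finite P) (_ : PartialOrder P),
      (@Sentence.Realize Language.order P (orderStructure P) φ ↔ ¬ IsDownPoset P) := by
  obtain ⟨N, R, -, h⟩ := realize_iff (n := 0) φ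
  let M : ℕ := R + N * ((2 * R + 1) * 2) + 1
  have hM : R < M := by
    have : 0 ≤ N * ((2 * R + 1) * 2) := Nat.zero_le _
    omega
  have hM' : N * ((2 * R + 1) * 2) < M := by omega
  have h1 : NeZero M := ⟨by omega⟩
  have h2 : NeZero (2 * M) := ⟨by omega⟩
  have key := h _ _ (straight M) (twisted M) (straight_good hM hM') (twisted_good hM hM')
    (fun i => i.elim0) (fun i => i.elim0) ⟨fun i => i.elim0, fun i => i.elim0⟩
  have e1 : @Sentence.Realize Language.order (Pos (straight M)) (orderStructure _) φ ↔
      @Sentence.Realize Language.order (Pos (twisted M)) (orderStructure _) φ := by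
    have a1 : (fun i => i.elim0 : Fin 0 → Pos (straight M)) = default := Subsingleton.elim _ _
    have a2 : (fun i => i.elim0 : Fin 0 → Pos (twisted M)) = default := Subsingleton.elim _ _
    rw [a1, a2] at key
    exact key
  by_cases hφ : @Sentence.Realize Language.order (Pos (straight M)) (orderStructure _) φ
  · exact ⟨Pos (twisted M), inferInstance, inferInstance,
      iff_of_true (e1.1 hφ) (twisted_not_down (by omega))⟩
  · exact ⟨Pos (straight M), inferInstance, inferInstance,
      iff_of_false hφ (fun hn => hn (straight_down M))⟩

end Pool.Agent.Results.MP_bbe6b0_lc.NotFirstOrder
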